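import Pool.Agent.X28.WD.Dim

set_option autoImplicit false

/-! The dimension is one. -/

namespace Pool.Agent.X28.WD

open Set Filter Topology Pool.Agent.X28.WB

section

variable {b : ℕ → ℤ} {k₀ : ℕ} {x₀ ℓ : ℝ}

lemma lx_congr (d d' : ℕ → ℕ) (n : ℕ) (h : ∀ i < n, d i = d' i) : lx b k₀ x₀ d n = lx b k₀ x₀ d' n := by
  induction n with
  | zero => rfl
  | succ n ih =>
    unfold lx
    rw [ih fun i hi => h i (by omega), h n (by omega)]

lemma sep (h : 1000 ≤ P k₀) (hℓ : 4 ≤ wt (P k₀) * ℓ) (d d' : ℕ → ℕ) (hd : ∀ k, d k < M k₀ ℓ k)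
    (hd' : ∀ k, d' k < M k₀ ℓ k) (n : ℕ) (heq : ∀ i < n, d i = d' i) (hne : d n ≠ d' n) :
    |((d n : ℕ) : ℝ) - ((d' n : ℕ) : ℝ)| * (1 / (2 * wt (Q k₀ n))) ≤ |pt b k₀ x₀ d - pt b k₀ x₀ d'| := by
  have h2 : 0 < wt (Q k₀ n) := wt_pos (Q_prime n).pos
  have h3 : (1000 : ℝ) ≤ Q k₀ n := by exact_mod_cast Q_ge h n
  have h7 : 1 / (3 * (Q k₀ n : ℝ)) ≤ 1 / 3 := by
    apply one_div_le_one_div_of_le (by norm_num)
    linarith
  obtain ⟨a1, a2⟩ := pt_val (b := b) (x₀ := x₀) h hℓ d hd n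
  obtain ⟨a3, a4⟩ := pt_val (b := b) (x₀ := x₀) h hℓ d' hd' n
  rw [lx_congr d d' n heq] at a1 a2
  have h1 : (1 : ℝ) ≤ |((d n : ℕ) : ℝ) - ((d' n : ℕ) : ℝ)| := by
    rcases Nat.lt_or_gt_of_ne hne with h | h
    · have : (d n : ℝ) + 1 ≤ d' n := by exact_mod_cast h
      rw [abs_sub_comm, abs_of_nonneg (by linarith)]
      linarith
    · have : (d' n : ℝ) + 1 ≤ d n := by exact_mod_cast h
      rw [abs_of_nonneg (by linarith)]
      linarith
  have h4 : |((d n : ℕ) : ℝ) - ((d' n : ℕ) : ℝ)| / 2 ≤ |wt (Q k₀ n) * pt b k₀ x₀ d - wt (Q k₀ n) * pt b k₀ x₀ d'| := by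
    rcases Nat.lt_or_gt_of_ne hne with h | h
    · have h5 : (d n : ℝ) + 1 ≤ d' n := by exact_mod_cast h
      rw [abs_sub_comm, abs_of_nonneg (by linarith), abs_sub_comm]
      refine le_trans ?_ (le_abs_self _)
      linarith
    · have h5 : (d' n : ℝ) + 1 ≤ d n := by exact_mod_cast h
      rw [abs_of_nonneg (by linarith)]
      refine le_trans ?_ (le_abs_self _)
      linarith
  rw [← mul_sub, abs_mul, abs_of_pos h2] at h4
  rw [mul_one_div, div_le_iff₀ (by positivity)]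
  linarith

/-- the products -/
lemma prod_eq (n : ℕ) :
    ∏ i ∈ Finset.range (n + 1), (wt (Q k₀ i) * Len k₀ ℓ i / 2) =
      ℓ / 2 * wt (Q k₀ n) / ∏ i ∈ Finset.range n, (6 * (Q k₀ i : ℝ)) := by
  induction n with
  | zero => simp [Len]; ring
  | succ n ih =>
    rw [Finset.prod_range_succ, ih, Finset.prod_range_succ _ n]
    have h2 : wt (Q k₀ n) ≠ 0 := (wt_pos (Q_prime n).pos).ne'
    have h3 : (Q k₀ n : ℝ) ≠ 0 := by exact_mod_cast (Q_prime n).ne_zero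
    have h4 : ∏ i ∈ Finset.range n, (6 * (Q k₀ i : ℝ)) ≠ 0 := by
      apply Finset.prod_ne_zero_iff.2
      intro i _
      have : (Q k₀ i : ℝ) ≠ 0 := by exact_mod_cast (Q_prime i).ne_zero
      positivity
    have e : Len k₀ ℓ (n + 1) = 1 / (3 * (Q k₀ n : ℝ) * wt (Q k₀ n)) := rfl
    rw [e]
    field_simp
    ring

lemma Q_inj : Function.Injective (Q k₀) := fun i j h => by
  have := (Nat.nth_strictMono Nat.infinite_setOfPred_prime).injective h
  omega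

lemma prod_Q (n : ℕ) : ∏ i ∈ Finset.range (n + 1), (6 * (Q k₀ i : ℝ)) ≤ 24 ^ (Q k₀ n) := by
  have h1 : ∏ i ∈ Finset.range (n + 1), Q k₀ i ≤ 4 ^ (Q k₀ n) := by
    refine le_trans ?_ (primorial_le_four_pow (Q k₀ n))
    rw [← Finset.prod_image (f := fun x => x) (g := Q k₀) (fun i _ j _ hij => Q_inj hij)]
    unfold primorial
    apply Finset.prod_le_prod_of_subset_of_one_le'
    · intro p hp
      obtain ⟨i, hi, rfl⟩ := Finset.mem_image.1 hp
      rw [Finset.mem_filter, Finset.mem_range]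
      refine ⟨?_, Q_prime i⟩
      have : Q k₀ i ≤ Q k₀ n := (strictMono_nat_of_lt_succ Q_lt).monotone (by
        rw [Finset.mem_range] at hi
        omega)
      omega
    · intro p hp _
      exact (Finset.mem_filter.1 hp).2.one_le
  have h2 : n + 1 ≤ Q k₀ n := by
    have : ∀ n, n + 1 ≤ Q k₀ n := by
      intro n
      induction n with
      | zero => exact (Q_prime 0).one_le
      | succ n ih =>
        have := Q_lt (k₀ := k₀) n
        omega
    exact this n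
  have h3 : ∏ i ∈ Finset.range (n + 1), (6 * Q k₀ i) ≤ 24 ^ (Q k₀ n) := by
    rw [Finset.prod_mul_distrib, Finset.prod_const, Finset.card_range]
    calc 6 ^ (n + 1) * ∏ i ∈ Finset.range (n + 1), Q k₀ i ≤ 6 ^ (Q k₀ n) * 4 ^ (Q k₀ n) :=
          Nat.mul_le_mul (Nat.pow_le_pow_right (by norm_num) h2) h1
      _ = 24 ^ (Q k₀ n) := by rw [← mul_pow]; norm_num
  exact_mod_cast h3

lemma hM_all (h : 1000 ≤ P k₀) (hℓ : 4 ≤ wt (P k₀) * ℓ) (hℓ0 : 0 < ℓ) (s : ℝ) (hs0 : 0 < s) (hs1 : s < 1) :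
    ∃ c₀ : ℝ, 0 < c₀ ∧ ∀ n, c₀ ≤ (∏ i ∈ Finset.range n, (M k₀ ℓ i : ℝ)) *
      ((M k₀ ℓ n : ℝ) * (1 / (2 * wt (Q k₀ n)))) ^ s := by
  obtain ⟨A, hA⟩ : ∃ A : ℝ, A = (24 : ℝ) ^ (1 / (1 - s)) := ⟨_, rfl⟩
  have hδ : 0 < 1 - s := by linarith
  have hA1 : 1 ≤ A := by
    rw [hA]
    exact Real.one_le_rpow (by norm_num) (by positivity)
  obtain ⟨c, hc, hW⟩ := wt_exp A hA1
  have hme : ∀ n, Len k₀ ℓ n / 4 ≤ (M k₀ ℓ n : ℝ) * (1 / (2 * wt (Q k₀ n))) := by
    intro n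
    have h2 : 0 < wt (Q k₀ n) := wt_pos (Q_prime n).pos
    have h1 := M_ge h hℓ n
    rw [mul_one_div, le_div_iff₀ (by positivity)]
    linarith
  have hLpos : ∀ n, 0 < Len k₀ ℓ n := by
    intro n
    have h2 : 0 < wt (Q k₀ n) := wt_pos (Q_prime n).pos
    have h1 := Len_big h hℓ n
    by_contra hneg
    nlinarith
  refine ⟨min ((ℓ / 4) ^ s) (ℓ / 4 * c ^ (1 - s)), ?_, fun n => ?_⟩
  · exact lt_min (by positivity) (by positivity)
  · cases n with
    | zero =>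
      refine (min_le_left _ _).trans ?_
      rw [Finset.range_zero, Finset.prod_empty, one_mul]
      exact Real.rpow_le_rpow (by positivity) (hme 0) hs0.le
    | succ n =>
      refine (min_le_right _ _).trans ?_
      have hw : 0 < wt (Q k₀ n) := wt_pos (Q_prime n).pos
      have hq : (1000 : ℝ) ≤ Q k₀ n := by exact_mod_cast Q_ge h n
      have h1 : ℓ / 2 * wt (Q k₀ n) / ∏ i ∈ Finset.range n, (6 * (Q k₀ i : ℝ)) ≤
          ∏ i ∈ Finset.range (n + 1), (M k₀ ℓ i : ℝ) := by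
        rw [← prod_eq]
        exact Finset.prod_le_prod (fun i _ => by have := Len_big h hℓ i; linarith) (fun i _ => M_ge h hℓ i)
      have h2 : (1 / (12 * (Q k₀ n : ℝ) * wt (Q k₀ n))) ^ s ≤
          ((M k₀ ℓ (n + 1) : ℝ) * (1 / (2 * wt (Q k₀ (n + 1))))) ^ s := by
        apply Real.rpow_le_rpow (by positivity) _ hs0.le
        refine le_trans (le_of_eq ?_) (hme (n + 1))
        have e : Len k₀ ℓ (n + 1) = 1 / (3 * (Q k₀ n : ℝ) * wt (Q k₀ n)) := rfl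
        rw [e]
        field_simp
        norm_num
      have hPpos : 0 < ∏ i ∈ Finset.range n, (6 * (Q k₀ i : ℝ)) := by
        apply Finset.prod_pos
        intro i _
        have : (0 : ℝ) < Q k₀ i := by exact_mod_cast (Q_prime i).pos
        positivity
      have h3 : 1 / (12 * (Q k₀ n : ℝ)) * wt (Q k₀ n) ^ (-s) ≤ (1 / (12 * (Q k₀ n : ℝ) * wt (Q k₀ n))) ^ s := by
        rw [one_div (12 * (Q k₀ n : ℝ) * wt (Q k₀ n)), Real.inv_rpow (by positivity), Real.mul_rpow (by positivity) hw.le,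
          mul_inv, ← Real.rpow_neg hw.le, one_div]
        apply mul_le_mul_of_nonneg_right _ (by positivity)
        apply inv_anti₀ (by positivity)
        calc (12 * (Q k₀ n : ℝ)) ^ s ≤ (12 * (Q k₀ n : ℝ)) ^ (1 : ℝ) :=
              Real.rpow_le_rpow_of_exponent_le (by linarith) hs1.le
          _ = _ := Real.rpow_one _
      have h4 : c ^ (1 - s) * 24 ^ (Q k₀ n) ≤ wt (Q k₀ n) ^ (1 - s) := by
        have h5 := Real.rpow_le_rpow (by positivity) (hW (Q k₀ n) (Q_prime n).one_le) hδ.le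
        refine le_trans (le_of_eq ?_) h5
        have e : 1 / (1 - s) * (Q k₀ n : ℝ) * (1 - s) = Q k₀ n := by field_simp
        have e7 : (A ^ (Q k₀ n)) ^ (1 - s) = (24 : ℝ) ^ (Q k₀ n) := by
          rw [hA, ← Real.rpow_natCast ((24 : ℝ) ^ (1 / (1 - s))) (Q k₀ n),
            ← Real.rpow_mul (by norm_num : (0 : ℝ) ≤ 24) (1 / (1 - s)) ((Q k₀ n : ℕ) : ℝ),
            ← Real.rpow_mul (by norm_num : (0 : ℝ) ≤ 24), e, Real.rpow_natCast]
        rw [Real.mul_rpow hc.le (by positivity), e7]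
      have h5 : wt (Q k₀ n) * wt (Q k₀ n) ^ (-s) = wt (Q k₀ n) ^ (1 - s) := by
        rw [sub_eq_add_neg, Real.rpow_add hw, Real.rpow_one]
      have h6 := prod_Q (k₀ := k₀) n
      rw [Finset.prod_range_succ] at h6
      calc ℓ / 4 * c ^ (1 - s) ≤ ℓ / 4 * (c ^ (1 - s) * 24 ^ (Q k₀ n)) /
            ((∏ i ∈ Finset.range n, (6 * (Q k₀ i : ℝ))) * (6 * (Q k₀ n : ℝ))) := by
            rw [le_div_iff₀ (by positivity)]
            have : 0 ≤ ℓ / 4 * c ^ (1 - s) := by positivity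
            nlinarith
        _ ≤ ℓ / 4 * wt (Q k₀ n) ^ (1 - s) /
            ((∏ i ∈ Finset.range n, (6 * (Q k₀ i : ℝ))) * (6 * (Q k₀ n : ℝ))) := by
            apply div_le_div_of_nonneg_right _ (by positivity)
            exact mul_le_mul_of_nonneg_left h4 (by positivity)
        _ = ℓ / 2 * wt (Q k₀ n) / (∏ i ∈ Finset.range n, (6 * (Q k₀ i : ℝ))) *
            (1 / (12 * (Q k₀ n : ℝ)) * wt (Q k₀ n) ^ (-s)) := by
            rw [← h5]
            have : (Q k₀ n : ℝ) ≠ 0 := by linarith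
            field_simp
            norm_num
        _ ≤ (∏ i ∈ Finset.range (n + 1), (M k₀ ℓ i : ℝ)) *
            ((M k₀ ℓ (n + 1) : ℝ) * (1 / (2 * wt (Q k₀ (n + 1))))) ^ s := by
            apply mul_le_mul h1 (h3.trans h2) (by positivity)
            apply Finset.prod_nonneg
            intro i _
            positivity

end

/-- the dimension of the set of parameters with prescribed residues -/
theorem dim_one (α β : ℝ) (hαβ : α < β) : ∃ p₀ : ℕ, ∀ b : ℕ → ℤ,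
    1 ≤ dimH {t : ℝ | α < t ∧ t < β ∧ ∀ p : ℕ, p.Prime → p₀ ≤ p → C Pool.Agent.X28.WI.amc b p t} := by
  obtain ⟨ℓ, hℓd⟩ : ∃ ℓ : ℝ, ℓ = (β - α) / 3 := ⟨_, rfl⟩
  obtain ⟨x₀, hx₀⟩ : ∃ x₀ : ℝ, x₀ = α + (β - α) / 3 := ⟨_, rfl⟩
  have hℓ0 : 0 < ℓ := by rw [hℓd]; linarith
  obtain ⟨c, hc, hW⟩ := wt_exp 2 (by norm_num)
  obtain ⟨N, hN⟩ := exists_nat_gt (4 / (c * ℓ))
  obtain ⟨q, hq1, hq⟩ := Nat.exists_infinite_primes (max 1000 N)
  obtain ⟨k₀, hk₀⟩ : ∃ j, P j = q := ⟨Nat.count Nat.Prime q, Nat.nth_count hq⟩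
  have h : 1000 ≤ P k₀ := by rw [hk₀]; exact (le_max_left _ _).trans hq1
  have hℓ : 4 ≤ wt (P k₀) * ℓ := by
    rw [hk₀]
    have h1 := hW q hq.one_le
    have h2 : (N : ℝ) ≤ q := by exact_mod_cast (le_max_right _ _).trans hq1
    have h3 : (q : ℝ) ≤ 2 ^ q := by exact_mod_cast Nat.lt_two_pow_self.le
    rw [div_lt_iff₀ (by positivity)] at hN
    have h4 : c * N ≤ c * 2 ^ q := mul_le_mul_of_nonneg_left (h2.trans h3) hc.le
    have h5 : c * N * ℓ ≤ wt q * ℓ := mul_le_mul_of_nonneg_right (h4.trans h1) hℓ0.le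
    nlinarith
  refine ⟨P k₀, fun b => ?_⟩
  have key : ∀ s : ℝ, 0 < s → s < 1 → ENNReal.ofReal s ≤
      dimH {t : ℝ | α < t ∧ t < β ∧ ∀ p : ℕ, p.Prime → P k₀ ≤ p → C Pool.Agent.X28.WI.amc b p t} := by
    intro s hs0 hs1
    obtain ⟨c₀, hc₀, hM⟩ := hM_all h hℓ hℓ0 s hs0 hs1
    have h1 := Pool.Agent.X10.ML.dimH_cantor (M k₀ ℓ) (M_two h hℓ) s hs0 hs1.le
      (fun n => 1 / (2 * wt (Q k₀ n))) (fun n => by have := wt_pos (Q_prime (k₀ := k₀) n).pos; positivity) c₀ hc₀ hM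
      (fun d => pt b k₀ x₀ (fun n => (d n : ℕ))) (fun d d' n heq hne =>
        sep h hℓ _ _ (fun k => (d k).2) (fun k => (d' k).2) n (fun i hi => by rw [heq i hi])
          (fun hh => hne (Fin.ext hh)))
    refine h1.trans (dimH_mono ?_)
    rintro _ ⟨d, rfl⟩
    have hd : ∀ k, (d k : ℕ) < M k₀ ℓ k := fun k => (d k).2
    have h2 := pt_mem (b := b) (x₀ := x₀) h hℓ (fun n => (d n : ℕ)) hd 0
    have h3 : lx b k₀ x₀ (fun n => (d n : ℕ)) 0 = x₀ := rfl
    have h4 : Len k₀ ℓ 0 = ℓ := rfl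
    rw [h3, h4] at h2
    refine ⟨by linarith [h2.1], by linarith [h2.2], fun p hp hpk => ?_⟩
    obtain ⟨j, hj⟩ : ∃ j, P j = p := ⟨Nat.count Nat.Prime p, Nat.nth_count hp⟩
    have hjk : k₀ ≤ j := by
      by_contra hlt
      have := Nat.nth_strictMono Nat.infinite_setOfPred_prime (not_le.1 hlt)
      have h5 : P j < P k₀ := this
      omega
    obtain ⟨k, rfl⟩ := Nat.exists_eq_add_of_le hjk
    have hQ : Q k₀ k = p := hj
    have h6 := pt_val (b := b) (x₀ := x₀) h hℓ (fun n => (d n : ℕ)) hd k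
    rw [hQ] at h6
    have hp0 : (0 : ℝ) < p := by exact_mod_cast hp.pos
    have e : Pool.Agent.X28.WI.amc p (pt b k₀ x₀ fun n => (d n : ℕ)) = wt p * pt b k₀ x₀ fun n => (d n : ℕ) := by
      unfold Pool.Agent.X28.WI.amc wt
      ring
    refine ⟨⌈wt p * lx b k₀ x₀ (fun n => (d n : ℕ)) k - (b p : ℝ) / p⌉ + (d k : ℕ), ?_, ?_⟩
    · rw [e]
      push_cast
      have : 0 < 1 / (3 * (p : ℝ)) := by positivity
      linarith [h6.1]
    · rw [e]
      push_cast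
      have h7 : 1 / (p : ℝ) = 3 * (1 / (3 * (p : ℝ))) := by field_simp
      have : 0 < 1 / (3 * (p : ℝ)) := by positivity
      rw [h7]
      linarith [h6.2]
  have hlim : Tendsto (fun s : ℝ => ENNReal.ofReal s) (𝓝[<] 1) (𝓝 (ENNReal.ofReal 1)) :=
    (ENNReal.continuous_ofReal.tendsto 1).mono_left nhdsWithin_le_nhds
  rw [ENNReal.ofReal_one] at hlim
  refine le_of_tendsto hlim ?_
  have h8 : ∀ᶠ s : ℝ in 𝓝[<] 1, 0 < s := (eventually_gt_nhds (show (0 : ℝ) < 1 by norm_num)).filter_mono nhdsWithin_le_nhds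
  filter_upwards [h8, self_mem_nhdsWithin] with s hs hs1
  exact key s hs hs1

end Pool.Agent.X28.WD
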