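import Pool.Agent.X28.WB.Two
import Pool.Agent.X10.ML.Cantor

set_option autoImplicit false

/-! The Hausdorff dimension of the set of the dilations with prescribed residues. -/

namespace Pool.Agent.X28.WD

open Set Filter Topology Pool.Agent.X28.WB

/-- the slope -/
noncomputable def wt (p : ℕ) : ℝ := (((p - 1).factorial : ℝ) + 1) / (p : ℝ) ^ 2

lemma wt_pos {p : ℕ} (hp : 0 < p) : 0 < wt p := by
  unfold wt
  have : (0 : ℝ) < p := by exact_mod_cast hp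
  positivity

lemma pow_big' (p g : ℕ) (hp : 1000 ≤ p) (hg : 2 ≤ g) : 144 * (p + g) ^ 2 ≤ p ^ (g + 1) := by
  induction g, hg using Nat.le_induction with
  | base =>
    have h1 : 1000 * (p + 2) ≤ 1002 * p := by omega
    have h2 : (1000 * (p + 2)) ^ 2 ≤ (1002 * p) ^ 2 := Nat.pow_le_pow_left h1 2
    have h3 : p ^ (2 + 1) = p * p ^ 2 := by ring
    have h4 : 1000 * p ^ 2 ≤ p * p ^ 2 := Nat.mul_le_mul_right _ hp
    have h5 : (1000 * (p + 2)) ^ 2 = 1000000 * (p + 2) ^ 2 := by ring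
    have h6 : (1002 * p) ^ 2 = 1004004 * p ^ 2 := by ring
    omega
  | succ g hg ih =>
    have h1 : (p + (g + 1)) ^ 2 ≤ (2 * (p + g)) ^ 2 := Nat.pow_le_pow_left (by omega) 2
    have h2 : (2 * (p + g)) ^ 2 = 4 * (p + g) ^ 2 := by ring
    have h3 : p ^ (g + 1 + 1) = p * p ^ (g + 1) := by ring
    have h4 : 1000 * p ^ (g + 1) ≤ p * p ^ (g + 1) := Nat.mul_le_mul_right _ hp
    omega

lemma wt_grow (p q : ℕ) (hp : p.Prime) (hq : q.Prime) (h : 1000 ≤ p) (hpq : p < q) : 72 * (p : ℝ) * wt p ≤ wt q := by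
  obtain ⟨g, hg, rfl⟩ := gap p q hp hq (by omega) hpq
  have hp' : (1000 : ℝ) ≤ p := by exact_mod_cast h
  have h1 : 72 * (p + g) ^ 2 * ((p - 1).factorial + 1) ≤ p * ((p + g - 1).factorial + 1) := by
    have h2 := Nat.factorial_mul_pow_le_factorial (m := p - 1) (n := g)
    have h3 : p - 1 + 1 = p := by omega
    have h4 : p - 1 + g = p + g - 1 := by omega
    rw [h3, h4] at h2
    have h5 := pow_big' p g h hg
    have h6 : 1 ≤ (p - 1).factorial := Nat.factorial_pos _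
    calc 72 * (p + g) ^ 2 * ((p - 1).factorial + 1) ≤ 72 * (p + g) ^ 2 * (2 * (p - 1).factorial) := by gcongr; omega
      _ = 144 * (p + g) ^ 2 * (p - 1).factorial := by ring
      _ ≤ p ^ (g + 1) * (p - 1).factorial := Nat.mul_le_mul_right _ h5
      _ = p * ((p - 1).factorial * p ^ g) := by ring
      _ ≤ p * (p + g - 1).factorial := Nat.mul_le_mul_left _ h2
      _ ≤ p * ((p + g - 1).factorial + 1) := Nat.mul_le_mul_left _ (Nat.le_succ _)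
  have h2 : (72 : ℝ) * ((p + g : ℕ) : ℝ) ^ 2 * (((p - 1).factorial : ℝ) + 1) ≤ p * (((p + g - 1).factorial : ℝ) + 1) := by
    exact_mod_cast h1
  have hq0 : (0 : ℝ) < ((p + g : ℕ) : ℝ) := by exact_mod_cast (by omega : 0 < p + g)
  unfold wt
  rw [le_div_iff₀ (by positivity)]
  have e3 : 72 * (p : ℝ) * ((((p - 1).factorial : ℝ) + 1) / (p : ℝ) ^ 2) * ((p + g : ℕ) : ℝ) ^ 2 =
      (72 * ((p + g : ℕ) : ℝ) ^ 2 * (((p - 1).factorial : ℝ) + 1)) / p := by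
    field_simp
  rw [e3, div_le_iff₀ (by linarith)]
  linarith

/-- the slope beats every exponential -/
lemma wt_exp (A : ℝ) (hA : 1 ≤ A) : ∃ c : ℝ, 0 < c ∧ ∀ p : ℕ, 1 ≤ p → c * A ^ p ≤ wt p := by
  have h1 := FloorSemiring.tendsto_pow_div_factorial_atTop (8 * A)
  obtain ⟨K, hK⟩ := h1.bddAbove_range
  have hK' : ∀ n : ℕ, (8 * A) ^ n / (n.factorial : ℝ) ≤ K := fun n => hK ⟨n, rfl⟩
  have hK0 : 0 < K := lt_of_lt_of_le (by positivity) (hK' 0)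
  refine ⟨1 / K, by positivity, fun p hp => ?_⟩
  have h2 := hK' p
  have hp0 : (0 : ℝ) < p := by exact_mod_cast hp
  have hf : ((p.factorial : ℕ) : ℝ) = p * ((p - 1).factorial : ℝ) := by
    rw [← Nat.mul_factorial_pred (by omega : p ≠ 0)]
    push_cast
    ring
  have hF : (0 : ℝ) < ((p - 1).factorial : ℝ) := by exact_mod_cast Nat.factorial_pos _
  rw [hf, div_le_iff₀ (by positivity), mul_pow] at h2
  have h8 : (p : ℝ) ^ 3 ≤ 8 ^ p := by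
    have h3 : p < 2 ^ p := Nat.lt_two_pow_self
    have h4 : p ^ 3 ≤ (2 ^ p) ^ 3 := Nat.pow_le_pow_left h3.le 3
    have h5 : (2 ^ p) ^ 3 = 8 ^ p := by rw [← pow_mul, mul_comm, pow_mul]; norm_num
    rw [h5] at h4
    exact_mod_cast h4
  have hAp : (0 : ℝ) < A ^ p := by positivity
  have h9 : (p : ℝ) ^ 3 * A ^ p ≤ K * (p * ((p - 1).factorial : ℝ)) :=
    (mul_le_mul_of_nonneg_right h8 hAp.le).trans h2
  unfold wt
  rw [le_div_iff₀ (by positivity)]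
  have h10 : p * ((p : ℝ) ^ 2 * A ^ p) ≤ p * (K * ((p - 1).factorial : ℝ)) := by
    calc p * ((p : ℝ) ^ 2 * A ^ p) = (p : ℝ) ^ 3 * A ^ p := by ring
      _ ≤ K * (p * ((p - 1).factorial : ℝ)) := h9
      _ = p * (K * ((p - 1).factorial : ℝ)) := by ring
  have h11 := le_of_mul_le_mul_left h10 hp0
  have e : 1 / K * A ^ p * (p : ℝ) ^ 2 = ((p : ℝ) ^ 2 * A ^ p) / K := by ring
  rw [e, div_le_iff₀ hK0]
  nlinarith

section

variable (b : ℕ → ℤ) (k₀ : ℕ) (x₀ ℓ : ℝ)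

/-- the `k`-th prime of the construction -/
noncomputable def Q (k : ℕ) : ℕ := P (k₀ + k)

/-- the lengths of the intervals -/
noncomputable def Len : ℕ → ℝ
  | 0 => ℓ
  | k + 1 => 1 / (3 * (Q k₀ k : ℝ) * wt (Q k₀ k))

/-- the branching numbers -/
noncomputable def M (k : ℕ) : ℕ := ⌊wt (Q k₀ k) * Len k₀ ℓ k⌋₊ - 1

/-- the left end points -/
noncomputable def lx (d : ℕ → ℕ) : ℕ → ℝ
  | 0 => x₀
  | k + 1 => (⌈wt (Q k₀ k) * lx d k - (b (Q k₀ k) : ℝ) / Q k₀ k⌉ + d k + (b (Q k₀ k) : ℝ) / Q k₀ k +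
      1 / (3 * (Q k₀ k : ℝ))) / wt (Q k₀ k)

variable {b k₀ x₀ ℓ}

lemma Q_prime (k : ℕ) : (Q k₀ k).Prime := P_prime _

lemma Q_lt (k : ℕ) : Q k₀ k < Q k₀ (k + 1) := P_lt (k₀ + k)

lemma Q_ge (h : 1000 ≤ P k₀) (k : ℕ) : 1000 ≤ Q k₀ k :=
  h.trans ((Nat.nth_strictMono Nat.infinite_setOfPred_prime).monotone (Nat.le_add_right _ _))

lemma Len_big (h : 1000 ≤ P k₀) (hℓ : 4 ≤ wt (P k₀) * ℓ) (k : ℕ) : 4 ≤ wt (Q k₀ k) * Len k₀ ℓ k := by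
  cases k with
  | zero => exact hℓ
  | succ k =>
    have h1 := wt_grow _ _ (Q_prime k) (Q_prime (k + 1)) (Q_ge h k) (Q_lt k)
    have h2 : 0 < wt (Q k₀ k) := wt_pos (Q_prime k).pos
    have h3 : (0 : ℝ) < Q k₀ k := by exact_mod_cast (Q_prime k).pos
    unfold Len
    rw [mul_one_div, le_div_iff₀ (by positivity)]
    nlinarith

lemma M_le (h : 1000 ≤ P k₀) (hℓ : 4 ≤ wt (P k₀) * ℓ) (k : ℕ) : (M k₀ ℓ k : ℝ) + 1 ≤ wt (Q k₀ k) * Len k₀ ℓ k := by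
  have h1 := Len_big h hℓ k
  have h2 : 4 ≤ ⌊wt (Q k₀ k) * Len k₀ ℓ k⌋₊ := Nat.le_floor (by exact_mod_cast h1)
  have h3 := Nat.floor_le (show 0 ≤ wt (Q k₀ k) * Len k₀ ℓ k by linarith)
  unfold M
  rw [Nat.cast_sub (by omega)]
  push_cast
  linarith

lemma M_ge (h : 1000 ≤ P k₀) (hℓ : 4 ≤ wt (P k₀) * ℓ) (k : ℕ) : wt (Q k₀ k) * Len k₀ ℓ k / 2 ≤ M k₀ ℓ k := by
  have h1 := Len_big h hℓ k
  have h2 : 4 ≤ ⌊wt (Q k₀ k) * Len k₀ ℓ k⌋₊ := Nat.le_floor (by exact_mod_cast h1)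
  have h3 := Nat.lt_floor_add_one (wt (Q k₀ k) * Len k₀ ℓ k)
  unfold M
  rw [Nat.cast_sub (by omega)]
  push_cast
  linarith

lemma M_two (h : 1000 ≤ P k₀) (hℓ : 4 ≤ wt (P k₀) * ℓ) (k : ℕ) : 2 ≤ M k₀ ℓ k := by
  have h1 := Len_big h hℓ k
  have h2 := M_ge h hℓ k
  have h3 : (2 : ℝ) ≤ M k₀ ℓ k := by linarith
  exact_mod_cast h3

lemma lx_le (d : ℕ → ℕ) (k : ℕ) : lx b k₀ x₀ d k ≤ lx b k₀ x₀ d (k + 1) := by
  have h2 : 0 < wt (Q k₀ k) := wt_pos (Q_prime k).pos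
  have h3 : (0 : ℝ) < Q k₀ k := by exact_mod_cast (Q_prime k).pos
  have h4 := Int.le_ceil (wt (Q k₀ k) * lx b k₀ x₀ d k - (b (Q k₀ k) : ℝ) / Q k₀ k)
  have h5 : (0 : ℝ) ≤ d k := Nat.cast_nonneg _
  have h6 : 0 < 1 / (3 * (Q k₀ k : ℝ)) := by positivity
  conv_rhs => unfold lx
  rw [le_div_iff₀ h2]
  linarith

lemma rx_le (h : 1000 ≤ P k₀) (hℓ : 4 ≤ wt (P k₀) * ℓ) (d : ℕ → ℕ) (k : ℕ) (hd : d k < M k₀ ℓ k) :
    lx b k₀ x₀ d (k + 1) + Len k₀ ℓ (k + 1) ≤ lx b k₀ x₀ d k + Len k₀ ℓ k := by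
  have h2 : 0 < wt (Q k₀ k) := wt_pos (Q_prime k).pos
  have h3 : (1000 : ℝ) ≤ Q k₀ k := by exact_mod_cast Q_ge h k
  have h4 := Int.ceil_lt_add_one (wt (Q k₀ k) * lx b k₀ x₀ d k - (b (Q k₀ k) : ℝ) / Q k₀ k)
  have h5 : (d k : ℝ) + 1 ≤ M k₀ ℓ k := by exact_mod_cast hd
  have h6 := M_le h hℓ k
  have h7 : 1 / (3 * (Q k₀ k : ℝ)) ≤ 1 / 3 := by
    apply one_div_le_one_div_of_le (by norm_num)
    linarith
  have e : lx b k₀ x₀ d (k + 1) + Len k₀ ℓ (k + 1) =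
      (⌈wt (Q k₀ k) * lx b k₀ x₀ d k - (b (Q k₀ k) : ℝ) / Q k₀ k⌉ + d k + (b (Q k₀ k) : ℝ) / Q k₀ k +
      2 * (1 / (3 * (Q k₀ k : ℝ)))) / wt (Q k₀ k) := by
    have h0 : (Q k₀ k : ℝ) ≠ 0 := by linarith
    conv_lhs => unfold lx Len
    field_simp
    ring
  rw [e, div_le_iff₀ h2]
  nlinarith

/-- the point with the digits `d` -/
noncomputable def pt (b : ℕ → ℤ) (k₀ : ℕ) (x₀ : ℝ) (d : ℕ → ℕ) : ℝ := ⨆ k, lx b k₀ x₀ d k

lemma pt_mem (h : 1000 ≤ P k₀) (hℓ : 4 ≤ wt (P k₀) * ℓ) (d : ℕ → ℕ) (hd : ∀ k, d k < M k₀ ℓ k) (k : ℕ) :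
    lx b k₀ x₀ d k ≤ pt b k₀ x₀ d ∧ pt b k₀ x₀ d ≤ lx b k₀ x₀ d k + Len k₀ ℓ k := by
  have h1 : Monotone (lx b k₀ x₀ d) := monotone_nat_of_le_succ (lx_le d)
  have h2 : Antitone fun k => lx b k₀ x₀ d k + Len k₀ ℓ k := antitone_nat_of_succ_le fun k => rx_le h hℓ d k (hd k)
  have hL : ∀ k, 0 ≤ Len k₀ ℓ k := by
    intro k
    have h3 := Len_big h hℓ k
    have h4 : 0 < wt (Q k₀ k) := wt_pos (Q_prime k).pos
    by_contra hneg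
    nlinarith
  have h3 : lx b k₀ x₀ d ≤ fun k => lx b k₀ x₀ d k + Len k₀ ℓ k := fun k => by
    have := hL k
    simp only
    linarith
  have hmem := h1.ciSup_mem_iInter_Icc_of_antitone h2 h3
  rw [mem_iInter] at hmem
  exact hmem k

lemma pt_val (h : 1000 ≤ P k₀) (hℓ : 4 ≤ wt (P k₀) * ℓ) (d : ℕ → ℕ) (hd : ∀ k, d k < M k₀ ℓ k) (k : ℕ) :
    ⌈wt (Q k₀ k) * lx b k₀ x₀ d k - (b (Q k₀ k) : ℝ) / Q k₀ k⌉ + d k + (b (Q k₀ k) : ℝ) / Q k₀ k +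
      1 / (3 * (Q k₀ k : ℝ)) ≤ wt (Q k₀ k) * pt b k₀ x₀ d ∧
    wt (Q k₀ k) * pt b k₀ x₀ d ≤
      ⌈wt (Q k₀ k) * lx b k₀ x₀ d k - (b (Q k₀ k) : ℝ) / Q k₀ k⌉ + d k + (b (Q k₀ k) : ℝ) / Q k₀ k +
      2 * (1 / (3 * (Q k₀ k : ℝ))) := by
  have h2 : 0 < wt (Q k₀ k) := wt_pos (Q_prime k).pos
  have h3 : (1000 : ℝ) ≤ Q k₀ k := by exact_mod_cast Q_ge h k
  have h0 : (Q k₀ k : ℝ) ≠ 0 := by linarith
  obtain ⟨h4, h5⟩ := pt_mem (b := b) (x₀ := x₀) h hℓ d hd (k + 1)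
  have e1 : lx b k₀ x₀ d (k + 1) * wt (Q k₀ k) =
      ⌈wt (Q k₀ k) * lx b k₀ x₀ d k - (b (Q k₀ k) : ℝ) / Q k₀ k⌉ + d k + (b (Q k₀ k) : ℝ) / Q k₀ k +
      1 / (3 * (Q k₀ k : ℝ)) := by
    conv_lhs => unfold lx
    field_simp
  have e2 : Len k₀ ℓ (k + 1) * wt (Q k₀ k) = 1 / (3 * (Q k₀ k : ℝ)) := by
    conv_lhs => unfold Len
    field_simp
  constructor
  · rw [← e1]
    nlinarith
  · have h6 : pt b k₀ x₀ d * wt (Q k₀ k) ≤ (lx b k₀ x₀ d (k + 1) + Len k₀ ℓ (k + 1)) * wt (Q k₀ k) :=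
      mul_le_mul_of_nonneg_right h5 h2.le
    rw [add_mul, e1, e2] at h6
    linarith

end

end Pool.Agent.X28.WD
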